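import Pool.Agent.Helper82.HP.Atom

/-!
# The conditional law given the past is nonatomic or `X` is a function of the past
-/

set_option autoImplicit false

namespace Pool.Agent.Helper82.HP

open MeasureTheory Set Filter Topology ProbabilityTheory

theorem int_key {Ω : Type*} [MeasurableSpace Ω] {μ : Measure Ω} [IsProbabilityMeasure μ] {α : Type*} [MeasurableSpace α]
    {past : Ω → α} (hpast : Measurable past) {X : Ω → ℝ} (hX : Measurable X) {κ : Kernel α ℝ} [IsMarkovKernel κ]
    (hk : (μ.map past) ⊗ₘ κ = μ.map (fun ω => (past ω, X ω))) {g : α × ℝ → ℝ} (hg : Measurable g) {M : ℝ}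
    (hM : ∀ z, |g z| ≤ M) :
    ∫ ω, ∫ y, g (past ω, y) ∂(κ (past ω)) ∂μ = ∫ ω, g (past ω, X ω) ∂μ := by
  have hprob : IsProbabilityMeasure (μ.map past) := Measure.isProbabilityMeasure_map hpast.aemeasurable
  have hint : Integrable g ((μ.map past) ⊗ₘ κ) := by
    refine Integrable.mono' (g := fun _ => M) (integrable_const _) hg.aestronglyMeasurable ?_
    exact Eventually.of_forall fun z => by
      rw [Real.norm_eq_abs]
      exact hM z
  have h1 := Measure.integral_compProd hint
  rw [hk, integral_map (hpast.prodMk hX).aemeasurable hg.aestronglyMeasurable] at h1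
  rw [h1, integral_map hpast.aemeasurable]
  exact (hg.stronglyMeasurable.integral_kernel_prod_right' (κ := κ)).aestronglyMeasurable

/-- integrability of the inner integrals -/
theorem integrable_inner {Ω : Type*} [MeasurableSpace Ω] {μ : Measure Ω} [IsProbabilityMeasure μ] {α : Type*} [MeasurableSpace α]
    {past : Ω → α} (hpast : Measurable past) (κ : Kernel α ℝ) [IsMarkovKernel κ] {g : α × ℝ → ℝ} (hg : Measurable g) {M : ℝ}
    (hM : ∀ z, |g z| ≤ M) : Integrable (fun ω => ∫ y, g (past ω, y) ∂(κ (past ω))) μ := by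
  refine Integrable.mono' (g := fun _ => M) (integrable_const _) ?_ (Eventually.of_forall fun ω => ?_)
  · exact ((hg.stronglyMeasurable.integral_kernel_prod_right' (κ := κ)).comp_measurable hpast).aestronglyMeasurable
  · rw [Real.norm_eq_abs]
    have h := norm_integral_le_of_norm_le_const (μ := κ (past ω)) (f := fun y => g (past ω, y)) (C := M)
      (Eventually.of_forall fun y => by
        rw [Real.norm_eq_abs]
        exact hM _)
    simpa using h

/-- the tail of a past -/
def tl (s : ℕ → ℝ) : ℕ → ℝ := fun j => s (j + 1)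

theorem measurable_tl : Measurable tl := by
  unfold tl
  fun_prop

/-- the atoms of the conditional laws do not change when one more digit is revealed -/
theorem atoms_step {Ω : Type*} [MeasurableSpace Ω] {μ : Measure Ω} [IsProbabilityMeasure μ] {T : Ω → Ω}
    (hT : MeasurePreserving T μ μ) {past : Ω → ℕ → ℝ} (hpast : Measurable past) {X ξ : Ω → ℝ} (hX : Measurable X)
    {b : ℝ} (hb : 0 < b) (h0 : ∀ ω, past (T ω) 0 = ξ ω) (hS : ∀ ω j, past (T ω) (j + 1) = past ω j)
    (hXT : ∀ ω, X ω = ξ ω + X (T ω) / b) {κ : Kernel (ℕ → ℝ) ℝ} [IsMarkovKernel κ]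
    (hk : (μ.map past) ⊗ₘ κ = μ.map (fun ω => (past ω, X ω))) :
    ∀ᵐ ω ∂μ, ∀ y, (κ (past (T ω))).real {y} = (κ (past ω)).real {ξ ω + y / b} := by
  have htl : ∀ ω, tl (past (T ω)) = past ω := fun ω => by
    ext j
    exact hS ω j
  -- the three functions
  set a : (ℕ → ℝ) × ℝ → ℝ := fun z => (κ z.1).real {z.2} with ha
  have ham : Measurable a := measurable_kernel_atom κ
  have ha1 : ∀ z, |a z| ≤ 1 := fun z => by
    rw [ha, abs_of_nonneg measureReal_nonneg]
    exact measureReal_le_one
  set g : (ℕ → ℝ) × ℝ → ℝ := fun z => (κ (tl z.1)).real {z.1 0 + z.2 / b} with hg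
  have hgm : Measurable g := by
    refine measurable_kernel_atom' κ (measurable_tl.comp measurable_fst) ?_
    fun_prop
  have hg1 : ∀ z, |g z| ≤ 1 := fun z => by
    rw [hg, abs_of_nonneg measureReal_nonneg]
    exact measureReal_le_one
  set F : Ω → ℝ := fun ω => ∫ y, a (past ω, y) ∂(κ (past ω)) with hF
  set G : Ω → ℝ := fun ω => ∫ y, g (past ω, y) ∂(κ (past ω)) with hG
  have hFi : Integrable F μ := integrable_inner hpast κ ham ha1
  have hGi : Integrable G μ := integrable_inner hpast κ hgm hg1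
  have hFA : ∫ ω, F ω ∂μ = ∫ ω, a (past ω, X ω) ∂μ := int_key hpast hX hk ham ha1
  have hGA : ∫ ω, G ω ∂μ = ∫ ω, g (past ω, X ω) ∂μ := int_key hpast hX hk hgm hg1
  have hinv : ∀ f : Ω → ℝ, AEStronglyMeasurable f μ → ∫ ω, f (T ω) ∂μ = ∫ ω, f ω ∂μ := by
    intro f hf
    have h1 : ∫ ω, f ω ∂(μ.map T) = ∫ ω, f (T ω) ∂μ := integral_map hT.measurable.aemeasurable (by rwa [hT.map_eq])
    rw [hT.map_eq] at h1
    exact h1.symm
  have hgT : ∀ ω, g (past (T ω), X (T ω)) = a (past ω, X ω) := by
    intro ω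
    show (κ (tl (past (T ω)))).real {past (T ω) 0 + X (T ω) / b} = (κ (past ω)).real {X ω}
    rw [htl, h0, ← hXT]
  have hGA2 : ∫ ω, G ω ∂μ = ∫ ω, F ω ∂μ := by
    rw [hGA, hFA, ← hinv (fun ω => g (past ω, X ω)) (hgm.comp (hpast.prodMk hX)).aestronglyMeasurable]
    exact integral_congr_ae (Eventually.of_forall hgT)
  -- the laws
  set ν : Ω → Measure ℝ := fun ω => (κ (past (T ω))).map (fun y => ξ ω + y / b) with hν
  have hmap : ∀ ω, Measurable fun y : ℝ => ξ ω + y / b := fun ω => by fun_prop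
  have hνp : ∀ ω, IsProbabilityMeasure (ν ω) := fun ω => Measure.isProbabilityMeasure_map (hmap ω).aemeasurable
  have hνat : ∀ ω y, (ν ω).real {ξ ω + y / b} = (κ (past (T ω))).real {y} := by
    intro ω y
    rw [hν, map_measureReal_apply (hmap ω) (measurableSet_singleton _)]
    congr 1
    ext z
    simp only [mem_preimage, mem_singleton_iff]
    constructor
    · intro h
      have : z / b = y / b := by linarith
      field_simp at this
      exact this
    · intro h
      rw [h]
  have hν1 : ∀ ω, ∫ x, (ν ω).real {x} ∂(ν ω) = F (T ω) := by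
    intro ω
    show ∫ x, (ν ω).real {x} ∂((κ (past (T ω))).map (fun y => ξ ω + y / b)) = _
    rw [integral_map (hmap ω).aemeasurable (measurable_atom _).aestronglyMeasurable]
    exact integral_congr_ae (Eventually.of_forall fun y => hνat ω y)
  have hν2 : ∀ ω, ∫ x, (κ (past ω)).real {x} ∂(ν ω) = G (T ω) := by
    intro ω
    show ∫ x, (κ (past ω)).real {x} ∂((κ (past (T ω))).map (fun y => ξ ω + y / b)) = _
    rw [integral_map (hmap ω).aemeasurable (measurable_atom _).aestronglyMeasurable]
    refine integral_congr_ae (Eventually.of_forall fun y => ?_)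
    show (κ (past ω)).real {ξ ω + y / b} = (κ (tl (past (T ω)))).real {past (T ω) 0 + y / b}
    rw [htl, h0]
  -- the square
  set D : Ω → ℝ := fun ω => F (T ω) - G (T ω) - G (T ω) + F ω with hD
  have hDe : ∀ ω, D ω = ∫ x, (ν ω).real {x} ∂(ν ω) - ∫ x, (κ (past ω)).real {x} ∂(ν ω) -
      ∫ x, (ν ω).real {x} ∂(κ (past ω)) + ∫ x, (κ (past ω)).real {x} ∂(κ (past ω)) := by
    intro ω
    rw [atoms_symm (κ (past ω)) (ν ω), hν1, hν2]
  have hD0 : ∀ ω, 0 ≤ D ω := fun ω => by
    rw [hDe]
    exact (sq_diff (ν ω) (κ (past ω))).1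
  have hFT : Integrable (fun ω => F (T ω)) μ := hT.integrable_comp_of_integrable hFi
  have hGT : Integrable (fun ω => G (T ω)) μ := hT.integrable_comp_of_integrable hGi
  have hDi : Integrable D μ := ((hFT.sub hGT).sub hGT).add hFi
  have hDz : ∫ ω, D ω ∂μ = 0 := by
    show ∫ ω, ((F (T ω) - G (T ω) - G (T ω)) + F ω) ∂μ = 0
    rw [integral_add (f := fun ω => F (T ω) - G (T ω) - G (T ω)) ((hFT.sub hGT).sub hGT) hFi,
      integral_sub (f := fun ω => F (T ω) - G (T ω)) (hFT.sub hGT) hGT, integral_sub hFT hGT,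
      hinv F hFi.aestronglyMeasurable, hinv G hGi.aestronglyMeasurable, hGA2]
    ring
  have hae := (integral_eq_zero_iff_of_nonneg hD0 hDi).1 hDz
  filter_upwards [hae] with ω hω y
  have h1 : D ω = 0 := hω
  rw [hDe] at h1
  have h2 := (sq_diff (ν ω) (κ (past ω))).2 h1 (ξ ω + y / b)
  rw [← hνat ω y]
  exact h2

/-- the past after `k` steps -/
theorem atoms_iter {Ω : Type*} [MeasurableSpace Ω] {μ : Measure Ω} {T : Ω → Ω}
    (hT : MeasurePreserving T μ μ) {past : Ω → ℕ → ℝ} {X ξ : Ω → ℝ} {b : ℝ} (hb : 0 < b)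
    (hXT : ∀ ω, X ω = ξ ω + X (T ω) / b) {κ : Kernel (ℕ → ℝ) ℝ}
    (hstep : ∀ᵐ ω ∂μ, ∀ y, (κ (past (T ω))).real {y} = (κ (past ω)).real {ξ ω + y / b}) :
    ∀ᵐ ω ∂μ, ∀ k : ℕ, ∃ s : ℝ, X ω = s + X (T^[k] ω) / b ^ k ∧
      ∀ y, (κ (past (T^[k] ω))).real {y} = (κ (past ω)).real {s + y / b ^ k} := by
  have hall : ∀ᵐ ω ∂μ, ∀ k : ℕ, ∀ y, (κ (past (T (T^[k] ω)))).real {y} = (κ (past (T^[k] ω))).real {ξ (T^[k] ω) + y / b} := by
    rw [ae_all_iff]
    intro k
    exact (hT.iterate k).quasiMeasurePreserving.ae hstep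
  filter_upwards [hall] with ω hω k
  induction k with
  | zero =>
    refine ⟨0, ?_, fun y => ?_⟩
    · simp
    · simp
  | succ k ih =>
    obtain ⟨s, hs1, hs2⟩ := ih
    refine ⟨s + ξ (T^[k] ω) / b ^ k, ?_, fun y => ?_⟩
    · rw [hs1, hXT (T^[k] ω), Function.iterate_succ_apply', pow_succ]
      field_simp
      ring
    · rw [Function.iterate_succ_apply', hω k y, hs2]
      congr 2
      rw [pow_succ]
      field_simp
      ring

theorem nonatomic_or_past {Ω : Type*} [MeasurableSpace Ω] {μ : Measure Ω} [IsProbabilityMeasure μ] {T : Ω → Ω}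
    (hT : Ergodic T μ) {past : Ω → ℕ → ℝ} (hpast : Measurable past) {X ξ : Ω → ℝ} (hX : Measurable X)
    {C : ℝ} (hXC : ∀ ω, |X ω| ≤ C)
    {b : ℝ} (hb : 1 < b) (h0 : ∀ ω, past (T ω) 0 = ξ ω) (hS : ∀ ω j, past (T ω) (j + 1) = past ω j)
    (hXT : ∀ ω, X ω = ξ ω + X (T ω) / b) {κ : Kernel (ℕ → ℝ) ℝ} [IsMarkovKernel κ]
    (hk : (μ.map past) ⊗ₘ κ = μ.map (fun ω => (past ω, X ω))) :
    (∀ᵐ ω ∂μ, ∀ x, κ (past ω) {x} = 0) ∨ ∃ f : (ℕ → ℝ) → ℝ, Measurable f ∧ X =ᵐ[μ] fun ω => f (past ω) := by
  have hb0 : 0 < b := by linarith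
  have hTp := hT.toMeasurePreserving
  have hstep := atoms_step hTp hpast hX hb0 h0 hS hXT hk
  set a : (ℕ → ℝ) × ℝ → ℝ := fun z => (κ z.1).real {z.2} with ha
  have ham : Measurable a := measurable_kernel_atom κ
  have ha0 : ∀ z, 0 ≤ a z := fun z => measureReal_nonneg
  have ha1 : ∀ z, |a z| ≤ 1 := fun z => by
    rw [ha, abs_of_nonneg measureReal_nonneg]
    exact measureReal_le_one
  -- invariance
  set w : Ω → ℝ := fun ω => a (past ω, X ω) with hw
  have hwm : Measurable w := ham.comp (hpast.prodMk hX)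
  have hwT : w ∘ T =ᵐ[μ] w := by
    filter_upwards [hstep] with ω hω
    show (κ (past (T ω))).real {X (T ω)} = (κ (past ω)).real {X ω}
    rw [hω, ← hXT]
  obtain ⟨c, hc⟩ := hT.ae_eq_const_of_ae_eq_comp_ae hwm.aestronglyMeasurable hwT
  have hc0 : 0 ≤ c := by
    obtain ⟨ω, hω⟩ := hc.exists
    rw [Function.const_apply] at hω
    rw [← hω]
    exact ha0 _
  have hkey := int_key hpast hX hk ham ha1
  have hwc : ∫ ω, w ω ∂μ = c := by
    rw [integral_congr_ae hc]
    simp
  rcases hc0.eq_or_lt with hcz | hcpos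
  · left
    have h1 : ∫ ω, ∫ y, a (past ω, y) ∂(κ (past ω)) ∂μ = 0 := by
      rw [hkey]
      exact hwc.trans hcz.symm
    have h2 : ∀ ω, 0 ≤ ∫ y, a (past ω, y) ∂(κ (past ω)) := fun ω => integral_nonneg fun y => ha0 _
    have h3 := (integral_eq_zero_iff_of_nonneg h2 (integrable_inner hpast κ ham ha1)).1 h1
    filter_upwards [h3] with ω hω x
    have h4 : ∫ y, a (past ω, y) ∂(κ (past ω)) = 0 := hω
    have hint : Integrable (fun y => a (past ω, y)) (κ (past ω)) := integrable_atom (κ (past ω)) (κ (past ω))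
    have h5 : ∫ y in {x}, a (past ω, y) ∂(κ (past ω)) ≤ ∫ y, a (past ω, y) ∂(κ (past ω)) :=
      setIntegral_le_integral hint (Eventually.of_forall fun y => ha0 _)
    rw [integral_singleton, h4, smul_eq_mul] at h5
    have h6 : (κ (past ω)).real {x} * (κ (past ω)).real {x} ≤ 0 := h5
    have h7 : (κ (past ω)).real {x} = 0 := by nlinarith [measureReal_nonneg (μ := κ (past ω)) (s := {x})]
    rw [measureReal_def, ENNReal.toReal_eq_zero_iff] at h7
    exact h7.resolve_right (measure_ne_top _ _)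
  · right
    have hiter := atoms_iter hTp hb0 hXT hstep
    -- support
    have hsupp : ∀ᵐ ω ∂μ, κ (past ω) {y | C < |y|} = 0 := by
      have hms : MeasurableSet {y : ℝ | C < |y|} := measurableSet_lt measurable_const (by fun_prop)
      have h1 : ∫ ω, ∫ y, ({y : ℝ | C < |y|}.indicator (fun _ => (1 : ℝ)) y) ∂(κ (past ω)) ∂μ = 0 := by
        have h2 := int_key hpast hX hk (g := fun z => {y : ℝ | C < |y|}.indicator (fun _ => (1 : ℝ)) z.2)
          ((measurable_const.indicator hms).comp measurable_snd) (M := 1) (fun z => by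
            simp only [indicator]
            split_ifs <;> simp)
        rw [h2]
        rw [← integral_zero Ω ℝ (μ := μ)]
        refine integral_congr_ae (Eventually.of_forall fun ω => ?_)
        simp only [indicator]
        rw [if_neg]
        exact not_lt.2 (hXC ω)
      have h2 : ∀ ω, 0 ≤ ∫ y, ({y : ℝ | C < |y|}.indicator (fun _ => (1 : ℝ)) y) ∂(κ (past ω)) := fun ω =>
        integral_nonneg fun y => indicator_nonneg (fun _ _ => zero_le_one) _
      have h3 := (integral_eq_zero_iff_of_nonneg h2 (integrable_inner hpast κ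
        (g := fun z => {y : ℝ | C < |y|}.indicator (fun _ => (1 : ℝ)) z.2)
        ((measurable_const.indicator hms).comp measurable_snd) (M := 1) (fun z => by
            simp only [indicator]
            split_ifs <;> simp))).1 h1
      filter_upwards [h3] with ω hω
      have h4 : ∫ y, ({y : ℝ | C < |y|}.indicator (fun _ => (1 : ℝ)) y) ∂(κ (past ω)) = 0 := hω
      rw [integral_indicator_const _ hms, smul_eq_mul, mul_one, measureReal_def, ENNReal.toReal_eq_zero_iff] at h4
      exact h4.resolve_right (measure_ne_top _ _)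
    have hsuppall : ∀ᵐ ω ∂μ, ∀ k : ℕ, κ (past (T^[k] ω)) {y | C < |y|} = 0 := by
      rw [ae_all_iff]
      intro k
      exact (hTp.iterate k).quasiMeasurePreserving.ae hsupp
    -- the only atom
    have honly : ∀ᵐ ω ∂μ, ∀ x, x ≠ X ω → (κ (past ω)).real {x} = 0 := by
      filter_upwards [hiter, hsuppall] with ω h1 h2 x hx
      by_contra hne
      have h3 : ∀ k : ℕ, |x - X ω| ≤ 2 * C / b ^ k := by
        intro k
        obtain ⟨s, hs1, hs2⟩ := h1 k
        have hbk : 0 < b ^ k := by positivity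
        have h4 : |b ^ k * (x - s)| ≤ C := by
          by_contra h5
          push Not at h5
          have h6 := hs2 (b ^ k * (x - s))
          have h7 : s + b ^ k * (x - s) / b ^ k = x := by
            field_simp
            ring
          rw [h7] at h6
          have h8 : κ (past (T^[k] ω)) {b ^ k * (x - s)} = 0 :=
            measure_mono_null (by
              intro z hz
              rw [mem_singleton_iff.1 hz]
              exact h5) (h2 k)
          rw [measureReal_def, h8] at h6
          exact hne h6.symm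
        have h5 : x - X ω = (b ^ k * (x - s) - X (T^[k] ω)) / b ^ k := by
          rw [hs1]
          field_simp
          ring
        rw [h5, abs_div, abs_of_pos hbk]
        apply div_le_div_of_nonneg_right _ hbk.le
        calc |b ^ k * (x - s) - X (T^[k] ω)| ≤ |b ^ k * (x - s)| + |X (T^[k] ω)| := abs_sub _ _
          _ ≤ C + C := add_le_add h4 (hXC _)
          _ = 2 * C := by ring
      have h4 : Tendsto (fun k : ℕ => 2 * C / b ^ k) atTop (𝓝 0) :=
        tendsto_const_nhds.div_atTop (tendsto_pow_atTop_atTop_of_one_lt hb)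
      have h5 : |x - X ω| ≤ 0 := ge_of_tendsto' h4 h3
      have h6 : x - X ω = 0 := abs_nonpos_iff.1 h5
      exact hx (by linarith)
    -- the function
    refine ⟨fun s => (c ^ 2)⁻¹ * ∫ y, y * a (s, y) ∂(κ s), ?_, ?_⟩
    · have hm : Measurable fun z : (ℕ → ℝ) × ℝ => z.2 * a z := measurable_snd.mul ham
      exact (hm.stronglyMeasurable.integral_kernel_prod_right' (κ := κ)).measurable.const_mul _
    · filter_upwards [honly, hc] with ω h1 h2
      have h3 : (κ (past ω)).real {X ω} = c := h2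
      have h4 : ∫ y, y * a (past ω, y) ∂(κ (past ω)) = ∫ y in {X ω}, y * a (past ω, y) ∂(κ (past ω)) := by
        symm
        apply setIntegral_eq_integral_of_forall_compl_eq_zero
        intro y hy
        have h5 : a (past ω, y) = 0 := h1 y (by simpa using hy)
        rw [h5, mul_zero]
      rw [h4, integral_singleton, smul_eq_mul]
      show X ω = (c ^ 2)⁻¹ * ((κ (past ω)).real {X ω} * (X ω * (κ (past ω)).real {X ω}))
      rw [h3]
      field_simp

end Pool.Agent.Helper82.HP
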