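import Mathlib
import Pool.Agent.Helper82.FK.VC
import Pool.Agent.Helper59.RE.Defs

/-!
# Wiener's lemma in a logarithmic window
-/

set_option autoImplicit false

namespace Pool.Agent.Helper82.HP

open MeasureTheory Set Filter Topology ProbabilityTheory
open Pool.Agent.Helper59.RE (e norm_e e_sub e_zero continuous_e)

theorem e_eq_FK (y : ℝ) : e y = Pool.Agent.Helper82.FK.e y := by
  unfold e Pool.Agent.Helper82.FK.e
  congr 1
  push_cast
  ring

/-- the kernel -/
noncomputable def Hw (b R z : ℝ) : ℂ := ∫ u in (0 : ℝ)..3, e (R * b ^ u * z)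

theorem Hw_norm (b R z : ℝ) : ‖Hw b R z‖ ≤ 3 := by
  unfold Hw
  have h := intervalIntegral.norm_integral_le_of_norm_le_const (a := (0 : ℝ)) (b := 3) (f := fun u : ℝ => e (R * b ^ u * z)) (C := 1)
    (fun u _ => (norm_e _).le)
  refine h.trans ?_
  norm_num

theorem Hw_bound {b R z : ℝ} (hb : 1 < b) (hR : 0 < R) (hz : z ≠ 0) :
    ‖Hw b R z‖ ≤ (2 / (R * |z| * Real.log b) + 3 / (R * |z|)) / (2 * Real.pi) := by
  have hb0 : 0 < b := by linarith
  have hlb : 0 < Real.log b := Real.log_pos hb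
  have hz0 : 0 < |z| := abs_pos.2 hz
  have hd : ∀ u : ℝ, HasDerivAt (fun u : ℝ => b ^ u) (b ^ u * Real.log b) u := fun u => by
    have := (Real.hasStrictDerivAt_const_rpow hb0 u).hasDerivAt
    exact this
  have hpow : ∀ u ∈ Icc (0 : ℝ) 3, 1 ≤ b ^ u := fun u hu => Real.one_le_rpow hb.le hu.1
  have h := Pool.Agent.Helper82.FK.vc1 (a := 0) (b := 3) (by norm_num) (G := fun u => R * b ^ u * z)
    (G' := fun u => R * (b ^ u * Real.log b) * z) (G'' := fun u => R * (b ^ u * Real.log b * Real.log b) * z)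
    (fun u _ => ((hd u).const_mul R).mul_const z) (fun u _ => ((((hd u).mul_const (Real.log b)).const_mul R).mul_const z))
    (by
      have hc : Continuous fun u : ℝ => b ^ u := Real.continuous_const_rpow hb0.ne'
      fun_prop) (m := R * |z| * Real.log b) (V := 1 / (R * |z|)) (by positivity) (fun u hu => by
      have h1 := hpow u hu
      rw [abs_mul, abs_mul, abs_mul, abs_of_pos hR, abs_of_pos (Real.rpow_pos_of_pos hb0 u), abs_of_pos hlb]
      calc R * |z| * Real.log b = R * (1 * Real.log b) * |z| := by ring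
        _ ≤ R * (b ^ u * Real.log b) * |z| := by gcongr) (fun u hu => by
      have h1 := hpow u hu
      have hbu : 0 < b ^ u := Real.rpow_pos_of_pos hb0 u
      rw [abs_mul, abs_mul, abs_mul, abs_mul, abs_of_pos hR, abs_of_pos hbu, abs_of_pos hlb]
      have h2 : (1 / (R * |z|)) * (R * (b ^ u * Real.log b) * z) ^ 2 = R * (b ^ u * (b ^ u) * Real.log b * Real.log b) * |z| := by
        have h3 : z ^ 2 = |z| ^ 2 := (sq_abs z).symm
        rw [mul_pow (R * (b ^ u * Real.log b)) z, h3]
        field_simp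
      rw [h2]
      have h4 : b ^ u * 1 ≤ b ^ u * b ^ u := by gcongr
      calc R * (b ^ u * Real.log b * Real.log b) * |z| = R * (b ^ u * 1 * Real.log b * Real.log b) * |z| := by ring
        _ ≤ R * (b ^ u * (b ^ u) * Real.log b * Real.log b) * |z| := by gcongr)
  have h5 : Hw b R z = ∫ u in (0 : ℝ)..3, Pool.Agent.Helper82.FK.e (R * b ^ u * z) := by
    unfold Hw
    simp only [e_eq_FK]
  rw [h5]
  refine h.trans (le_of_eq ?_)
  congr 1
  ring

theorem continuous_Hw (b : ℝ) (hb : 0 < b) (R : ℝ) : Continuous (Hw b R) := by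
  unfold Hw
  apply intervalIntegral.continuous_parametric_intervalIntegral_of_continuous'
  have hc : Continuous fun u : ℝ => b ^ u := Real.continuous_const_rpow hb.ne'
  apply continuous_e.comp
  apply Continuous.mul
  · exact continuous_const.mul (hc.comp continuous_snd)
  · exact continuous_fst

theorem tendsto_Hw {b : ℝ} (hb : 1 < b) {R : ℕ → ℝ} (hR : Tendsto R atTop atTop) {z : ℝ} (hz : z ≠ 0) :
    Tendsto (fun m => Hw b (R m) z) atTop (𝓝 0) := by
  have hz0 : 0 < |z| := abs_pos.2 hz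
  have hlb : 0 < Real.log b := Real.log_pos hb
  rw [tendsto_zero_iff_norm_tendsto_zero]
  have h1 : Tendsto (fun m => (2 / (R m * |z| * Real.log b) + 3 / (R m * |z|)) / (2 * Real.pi)) atTop (𝓝 ((0 + 0) / (2 * Real.pi))) := by
    refine Tendsto.div_const (Tendsto.add ?_ ?_) _
    · exact tendsto_const_nhds.div_atTop ((hR.atTop_mul_const hz0).atTop_mul_const hlb)
    · exact tendsto_const_nhds.div_atTop (hR.atTop_mul_const hz0)
  rw [add_zero, zero_div] at h1
  refine squeeze_zero' (Eventually.of_forall fun m => norm_nonneg _) ?_ h1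
  filter_upwards [hR.eventually_gt_atTop 0] with m hm
  exact Hw_bound hb hm hz

/-- the square of the modulus as a double integral -/
theorem sq_eq (p : Measure ℝ) [IsProbabilityMeasure p] (t : ℝ) :
    ((‖∫ x, e (t * x) ∂p‖ ^ 2 : ℝ) : ℂ) = ∫ z : ℝ × ℝ, e (t * (z.1 - z.2)) ∂(p.prod p) := by
  have h1 : ((‖∫ x, e (t * x) ∂p‖ ^ 2 : ℝ) : ℂ) = (∫ x, e (t * x) ∂p) * (starRingEnd ℂ) (∫ x, e (t * x) ∂p) := by
    rw [Complex.mul_conj, Complex.normSq_eq_norm_sq]
  rw [h1, ← integral_conj, ← integral_prod_mul]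
  refine integral_congr_ae (Eventually.of_forall fun z => ?_)
  simp only
  rw [← e_sub]
  congr 1
  ring

/-- Wiener's lemma in a logarithmic window -/
theorem wiener {p : Measure ℝ} [IsProbabilityMeasure p] (hp : ∀ x, p {x} = 0) {b : ℝ} (hb : 1 < b) {R : ℕ → ℝ}
    (hR : Tendsto R atTop atTop) :
    Tendsto (fun m => ∫ u in (0 : ℝ)..3, ‖∫ x, e (R m * b ^ u * x) ∂p‖ ^ 2) atTop (𝓝 0) := by
  have hb0 : 0 < b := by linarith
  have hc : Continuous fun u : ℝ => b ^ u := Real.continuous_const_rpow hb0.ne'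
  have hfub : ∀ r : ℝ, ((∫ u in (0 : ℝ)..3, ‖∫ x, e (r * b ^ u * x) ∂p‖ ^ 2 : ℝ) : ℂ) =
      ∫ z : ℝ × ℝ, Hw b r (z.1 - z.2) ∂(p.prod p) := by
    intro r
    rw [← intervalIntegral.integral_ofReal]
    simp_rw [sq_eq]
    rw [intervalIntegral.integral_of_le (by norm_num : (0 : ℝ) ≤ 3), integral_integral_swap]
    · refine integral_congr_ae (Eventually.of_forall fun z => ?_)
      simp only
      unfold Hw
      rw [intervalIntegral.integral_of_le (by norm_num : (0 : ℝ) ≤ 3)]
    · refine Integrable.mono' (g := fun _ => (1 : ℝ)) (integrable_const _) ?_ (Eventually.of_forall fun z => ?_)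
      · apply Continuous.aestronglyMeasurable
        show Continuous fun q : ℝ × (ℝ × ℝ) => e (r * b ^ q.1 * (q.2.1 - q.2.2))
        apply continuous_e.comp
        exact (continuous_const.mul (hc.comp continuous_fst)).mul (by fun_prop)
      · simp only [Function.uncurry]
        rw [norm_e]
  have hdiag : (p.prod p) {z : ℝ × ℝ | z.1 - z.2 = 0} = 0 := by
    have hm : MeasurableSet {z : ℝ × ℝ | z.1 - z.2 = 0} := (isClosed_eq (by fun_prop) continuous_const).measurableSet
    rw [Measure.prod_apply hm]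
    rw [lintegral_eq_zero_iff (measurable_measure_prodMk_left hm)]
    refine Eventually.of_forall fun x => ?_
    show p (Prod.mk x ⁻¹' {z : ℝ × ℝ | z.1 - z.2 = 0}) = 0
    have : Prod.mk x ⁻¹' {z : ℝ × ℝ | z.1 - z.2 = 0} = {x} := by
      ext y
      simp only [mem_preimage, mem_singleton_iff]
      constructor
      · intro h
        have h' : x - y = 0 := h
        linarith
      · intro h
        rw [h]
        exact sub_self x
    rw [this]
    exact hp x
  have hlim : Tendsto (fun m => ∫ z : ℝ × ℝ, Hw b (R m) (z.1 - z.2) ∂(p.prod p)) atTop (𝓝 (∫ z : ℝ × ℝ, (0 : ℂ) ∂(p.prod p))) := by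
    refine tendsto_integral_of_dominated_convergence (fun _ => (3 : ℝ)) (fun m => ?_) (integrable_const _) (fun m => ?_) ?_
    · exact ((continuous_Hw b hb0 (R m)).comp (by fun_prop)).aestronglyMeasurable
    · exact Eventually.of_forall fun z => Hw_norm _ _ _
    · have h1 : ∀ᵐ z ∂(p.prod p), z.1 - z.2 ≠ 0 := by
        rw [ae_iff]
        simpa using hdiag
      filter_upwards [h1] with z hz
      exact tendsto_Hw hb hR hz
  rw [integral_zero] at hlim
  have h2 : Tendsto (fun m => ((∫ u in (0 : ℝ)..3, ‖∫ x, e (R m * b ^ u * x) ∂p‖ ^ 2 : ℝ) : ℂ)) atTop (𝓝 ((0 : ℝ) : ℂ)) := by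
    simp_rw [hfub]
    simpa using hlim
  exact (Complex.continuous_re.tendsto _).comp h2

end Pool.Agent.Helper82.HP
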