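import Mathlib

/-!
# The conditional law of a stationary expansion given the past is nonatomic or the expansion is a function of the past
-/

set_option autoImplicit false

namespace Pool.Agent.Helper82.HP

open MeasureTheory Set Filter Topology ProbabilityTheory

theorem countable_atoms (p : Measure ℝ) [IsFiniteMeasure p] : {x | p.real {x} ≠ 0}.Countable := by
  have h := Measure.countable_meas_pos_of_disjoint_iUnion (μ := p) (As := fun x : ℝ => {x})
    (fun x => measurableSet_singleton x) (fun x y hxy => Set.disjoint_singleton.2 hxy)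
  refine h.mono fun x hx => ?_
  have hx' : (p {x}).toReal ≠ 0 := hx
  rw [ENNReal.toReal_ne_zero] at hx'
  exact pos_iff_ne_zero.2 hx'.1

theorem measurable_atom (p : Measure ℝ) [IsFiniteMeasure p] : Measurable fun x => p.real {x} := by
  have hd : MeasurableSet {z : ℝ × ℝ | z.2 = z.1} := (isClosed_eq continuous_snd continuous_fst).measurableSet
  have h := measurable_measure_prodMk_left (ν := p) hd
  exact h.ennreal_toReal

theorem hasSum_atoms {p : Measure ℝ} [IsFiniteMeasure p] {S : Set ℝ} (hS : S.Countable) {f : ℝ → ℝ}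
    (hf : Integrable f p) (hf0 : ∀ x ∉ S, f x = 0) : HasSum (fun x : S => p.real {(x : ℝ)} * f x) (∫ x, f x ∂p) := by
  have _ : Countable S := hS
  have hU : ⋃ x : S, ({(x : ℝ)} : Set ℝ) = S := by
    ext y
    simp
  have h := hasSum_integral_iUnion (μ := p) (f := f) (s := fun x : S => ({(x : ℝ)} : Set ℝ))
    (fun x => measurableSet_singleton _) (fun x y hxy => by
      simp only [Function.onFun, disjoint_singleton_left, mem_singleton_iff]
      exact fun h => hxy (Subtype.ext h)) hf.integrableOn
  rw [hU, setIntegral_eq_integral_of_forall_compl_eq_zero hf0] at h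
  simp only [integral_singleton, smul_eq_mul] at h
  exact h

theorem integrable_atom (p q : Measure ℝ) [IsProbabilityMeasure p] [IsProbabilityMeasure q] :
    Integrable (fun x => q.real {x}) p := by
  refine Integrable.mono' (g := fun _ => (1 : ℝ)) (integrable_const _) (measurable_atom q).aestronglyMeasurable ?_
  refine Eventually.of_forall fun x => ?_
  rw [Real.norm_eq_abs, abs_of_nonneg measureReal_nonneg]
  exact measureReal_le_one

theorem atoms_symm (p q : Measure ℝ) [IsProbabilityMeasure p] [IsProbabilityMeasure q] :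
    ∫ x, q.real {x} ∂p = ∫ x, p.real {x} ∂q := by
  set S : Set ℝ := {x | p.real {x} ≠ 0} ∪ {x | q.real {x} ≠ 0} with hS
  have hSc : S.Countable := (countable_atoms p).union (countable_atoms q)
  have h1 := hasSum_atoms hSc (integrable_atom p q) (fun x hx => by
    by_contra h
    exact hx (Or.inr h))
  have h2 := hasSum_atoms hSc (integrable_atom q p) (fun x hx => by
    by_contra h
    exact hx (Or.inl h))
  have h3 : (fun x : S => p.real {(x : ℝ)} * q.real {(x : ℝ)}) = fun x : S => q.real {(x : ℝ)} * p.real {(x : ℝ)} := by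
    ext x
    ring
  rw [h3] at h1
  exact h1.unique h2

theorem sq_diff (p q : Measure ℝ) [IsProbabilityMeasure p] [IsProbabilityMeasure q] :
    0 ≤ ∫ x, p.real {x} ∂p - ∫ x, q.real {x} ∂p - ∫ x, p.real {x} ∂q + ∫ x, q.real {x} ∂q ∧
    (∫ x, p.real {x} ∂p - ∫ x, q.real {x} ∂p - ∫ x, p.real {x} ∂q + ∫ x, q.real {x} ∂q = 0 →
      ∀ x, p.real {x} = q.real {x}) := by
  set S : Set ℝ := {x | p.real {x} ≠ 0} ∪ {x | q.real {x} ≠ 0} with hS
  have hSc : S.Countable := (countable_atoms p).union (countable_atoms q)
  have hp0 : ∀ x ∉ S, p.real {x} = 0 := fun x hx => by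
    by_contra h
    exact hx (Or.inl h)
  have hq0 : ∀ x ∉ S, q.real {x} = 0 := fun x hx => by
    by_contra h
    exact hx (Or.inr h)
  have h1 := hasSum_atoms hSc (integrable_atom p p) hp0
  have h2 := hasSum_atoms hSc (integrable_atom p q) hq0
  have h3 := hasSum_atoms hSc (integrable_atom q p) hp0
  have h4 := hasSum_atoms hSc (integrable_atom q q) hq0
  have h5 := ((h1.sub h2).sub h3).add h4
  have h6 : (fun x : S => p.real {(x : ℝ)} * p.real {(x : ℝ)} - p.real {(x : ℝ)} * q.real {(x : ℝ)} -
      q.real {(x : ℝ)} * p.real {(x : ℝ)} + q.real {(x : ℝ)} * q.real {(x : ℝ)}) =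
      fun x : S => (p.real {(x : ℝ)} - q.real {(x : ℝ)}) ^ 2 := by
    ext x
    ring
  rw [h6] at h5
  refine ⟨h5.nonneg fun x => sq_nonneg _, fun h0 x => ?_⟩
  rw [h0] at h5
  have h7 := (hasSum_zero_iff_of_nonneg fun x : S => sq_nonneg (p.real {(x : ℝ)} - q.real {(x : ℝ)})).1 h5
  by_cases hx : x ∈ S
  · have h8 := congrFun h7 ⟨x, hx⟩
    simp only [Pi.zero_apply] at h8
    have h9 := pow_eq_zero_iff (two_ne_zero) |>.1 h8
    linarith
  · rw [hp0 x hx, hq0 x hx]

/-- mass of the atom as a function of both variables -/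
theorem measurable_kernel_atom {α : Type*} [MeasurableSpace α] (κ : Kernel α ℝ) [IsMarkovKernel κ] :
    Measurable fun z : α × ℝ => (κ z.1).real {z.2} := by
  have hd : MeasurableSet {z : (α × ℝ) × ℝ | z.2 = z.1.2} :=
    measurableSet_eq_fun measurable_snd (measurable_snd.comp measurable_fst)
  have h := Kernel.measurable_kernel_prodMk_left (κ := κ.comap (Prod.fst : α × ℝ → α) measurable_fst) hd
  exact h.ennreal_toReal

theorem measurable_kernel_atom' {α : Type*} [MeasurableSpace α] (κ : Kernel α ℝ) [IsMarkovKernel κ]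
    {β : Type*} [MeasurableSpace β] {u : β → α} {v : β → ℝ} (hu : Measurable u) (hv : Measurable v) :
    Measurable fun z : β => (κ (u z)).real {v z} :=
  (measurable_kernel_atom κ).comp (hu.prodMk hv)

end Pool.Agent.Helper82.HP
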